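import Pool.Agent.L7h29.BP.Thr
import Pool.Agent.L7h58.BP.Stm4

set_option autoImplicit false

/-! Project BP, parts NR4 and TH4: the prime 3 for degree 4q. -/

namespace Pool.Agent.L7h64.BP

open Finset Polynomial Pool.Agent.L7h58.BP Pool.Agent.L7h29.BP

section field

variable {K : Type*} [Field K] [CharP K 3]

theorem three_eq : (3 : K) = 0 := by
  have := CharP.cast_eq_zero K 3
  exact_mod_cast this

theorem two_ne : (2 : K) ≠ 0 := by
  intro h
  have : (1 : K) = 0 := by linear_combination three_eq (K := K) - h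
  exact one_ne_zero this

theorem sgn (h81 : ∀ x : K, x ^ 81 = x) {z : K} (hz : z ≠ 0) : z ^ 40 = 1 ∨ z ^ 40 = -1 := by
  have h1 : z * ((z ^ 40 - 1) * (z ^ 40 + 1)) = 0 := by
    have := h81 z
    linear_combination this
  rcases mul_eq_zero.1 h1 with h | h
  · exact absurd h hz
  · rcases mul_eq_zero.1 h with h | h
    · exact Or.inl (sub_eq_zero.1 h)
    · exact Or.inr (eq_neg_of_add_eq_zero_left h)

theorem succ_pow {u : K} (hu : u ^ 4 = 1) (h1 : u + 1 ≠ 0) : (u + 1) ^ 40 = 1 := by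
  haveI : Fact (Nat.Prime 3) := ⟨Nat.prime_three⟩
  have h2 : (u + 1) ^ (3 ^ 2) = u ^ (3 ^ 2) + 1 ^ (3 ^ 2) := add_pow_char_pow u 1 3 2
  have h3 : (u + 1) * ((u + 1) ^ 8 - 1) = 0 := by
    have h4 : (u + 1) ^ 9 = u ^ 9 + 1 := by simpa using h2
    have h5 : u ^ 9 = u := by
      calc u ^ 9 = (u ^ 4) ^ 2 * u := by ring
        _ = u := by rw [hu]; ring
    rw [h5] at h4
    linear_combination h4
  have h6 : (u + 1) ^ 8 = 1 := by
    rcases mul_eq_zero.1 h3 with h | h
    · exact absurd h h1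
    · exact sub_eq_zero.1 h
  calc (u + 1) ^ 40 = ((u + 1) ^ 8) ^ 5 := by ring
    _ = 1 := by rw [h6, one_pow]

theorem sum4 (x : K) : x ^ 4 + (x + 1) ^ 4 + (x + 2) ^ 4 = 2 := by
  linear_combination (x ^ 4 + 4 * x ^ 3 + 10 * x ^ 2 + 12 * x + 5) * three_eq (K := K)

theorem noroot44 (h81 : ∀ x : K, x ^ 81 = x) (x : K) : x ^ 44 + (x + 1) ^ 44 + (x + 2) ^ 44 ≠ 0 := by
  intro h
  have h3 := three_eq (K := K)
  have h2 := two_ne (K := K)
  have hm : (1 : K) ≠ -1 := by
    intro h4
    apply h2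
    linear_combination h4
  by_cases h0 : x = 0
  · rw [h0] at h
    apply h2
    have e2 : (0 + 2 : K) = -1 := by linear_combination h3
    rw [e2] at h
    have e3 : (0 : K) ^ 44 + (0 + 1) ^ 44 + (-1) ^ 44 = 2 := by norm_num
    rw [e3] at h
    exact h
  by_cases h1 : x + 1 = 0
  · have e1 : x = -1 := eq_neg_of_add_eq_zero_left h1
    rw [e1] at h
    apply h2
    have e3 : (-1 : K) ^ 44 + (-1 + 1) ^ 44 + (-1 + 2) ^ 44 = 2 := by norm_num
    rw [e3] at h
    exact h
  by_cases h5 : x + 2 = 0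
  · have e1 : x = 1 := by linear_combination h5 - h3
    rw [e1] at h
    apply h2
    have e2 : (1 + 1 : K) = -1 := by linear_combination h3
    have e4 : (1 + 2 : K) = 0 := by linear_combination h3
    rw [e2, e4] at h
    have e3 : (1 : K) ^ 44 + (-1) ^ 44 + 0 ^ 44 = 2 := by norm_num
    rw [e3] at h
    exact h
  have hs := sum4 x
  have k0 : x ^ 44 = x ^ 40 * x ^ 4 := by ring
  have k1 : (x + 1) ^ 44 = (x + 1) ^ 40 * (x + 1) ^ 4 := by ring
  have k2 : (x + 2) ^ 44 = (x + 2) ^ 40 * (x + 2) ^ 4 := by ring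
  rw [k0, k1, k2] at h
  -- if `u ^ 4 = 1` then `u ^ 40 = 1`
  have p40 : ∀ u : K, u ^ 4 = 1 → u ^ 40 = 1 := fun u hu => by
    calc u ^ 40 = (u ^ 4) ^ 10 := by ring
      _ = 1 := by rw [hu, one_pow]
  have e3 : x + 2 + 1 = x := by linear_combination h3
  have e2 : x + 1 + 1 = x + 2 := by ring
  rcases sgn h81 h0 with s0 | s0 <;> rcases sgn h81 h1 with s1 | s1 <;>
    rcases sgn h81 h5 with s2 | s2 <;> rw [s0, s1, s2] at h
  · exact h2 (by linear_combination h - hs)
  · -- `+ + -`
    have h6 : (x + 2) ^ 4 = 1 := by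
      have : (2 : K) * ((x + 2) ^ 4 - 1) = 0 := by linear_combination hs - h
      rcases mul_eq_zero.1 this with h7 | h7
      · exact absurd h7 h2
      · exact sub_eq_zero.1 h7
    exact hm ((p40 _ h6).symm.trans s2)
  · -- `+ - +`
    have h6 : (x + 1) ^ 4 = 1 := by
      have : (2 : K) * ((x + 1) ^ 4 - 1) = 0 := by linear_combination hs - h
      rcases mul_eq_zero.1 this with h7 | h7
      · exact absurd h7 h2
      · exact sub_eq_zero.1 h7
    exact hm ((p40 _ h6).symm.trans s1)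
  · -- `+ - -`
    have h6 : x ^ 4 = 1 := by
      have : (2 : K) * (x ^ 4 - 1) = 0 := by linear_combination hs + h
      rcases mul_eq_zero.1 this with h7 | h7
      · exact absurd h7 h2
      · exact sub_eq_zero.1 h7
    exact hm ((succ_pow h6 h1).symm.trans s1)
  · -- `- + +`
    have h6 : x ^ 4 = 1 := by
      have : (2 : K) * (x ^ 4 - 1) = 0 := by linear_combination hs - h
      rcases mul_eq_zero.1 this with h7 | h7
      · exact absurd h7 h2
      · exact sub_eq_zero.1 h7
    exact hm ((p40 _ h6).symm.trans s0)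
  · -- `- + -`
    have h6 : (x + 1) ^ 4 = 1 := by
      have : (2 : K) * ((x + 1) ^ 4 - 1) = 0 := by linear_combination hs + h
      rcases mul_eq_zero.1 this with h7 | h7
      · exact absurd h7 h2
      · exact sub_eq_zero.1 h7
    have h8 := succ_pow h6 (by rw [e2]; exact h5)
    rw [e2] at h8
    exact hm (h8.symm.trans s2)
  · -- `- - +`
    have h6 : (x + 2) ^ 4 = 1 := by
      have : (2 : K) * ((x + 2) ^ 4 - 1) = 0 := by linear_combination hs + h
      rcases mul_eq_zero.1 this with h7 | h7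
      · exact absurd h7 h2
      · exact sub_eq_zero.1 h7
    have h8 := succ_pow h6 (by rw [e3]; exact h0)
    rw [e3] at h8
    exact hm (h8.symm.trans s0)
  · exact h2 (by linear_combination -h - hs)

theorem powr (h81 : ∀ x : K, x ^ 81 = x) (z : K) (m r : ℕ) (hr : 1 ≤ r) :
    z ^ (80 * m + r) = z ^ r := by
  induction m with
  | zero => simp
  | succ m ih =>
    obtain ⟨s, rfl⟩ : ∃ s, r = s + 1 := ⟨r - 1, by omega⟩
    rw [show 80 * (m + 1) + (s + 1) = (80 * m + s) + 81 by ring, pow_add, h81 z, ← pow_succ,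
      show 80 * m + s + 1 = 80 * m + (s + 1) by ring, ih]

theorem cube_sum (j : ℕ) (a b c : K) :
    a ^ 3 ^ j + b ^ 3 ^ j + c ^ 3 ^ j = (a + b + c) ^ 3 ^ j := by
  haveI : Fact (Nat.Prime 3) := ⟨Nat.prime_three⟩
  rw [add_pow_char_pow (a + b) c 3 j, add_pow_char_pow a b 3 j]

theorem noroot4 (h81 : ∀ x : K, x ^ 81 = x) (q : ℕ) (hq : q % 2 = 1) (hq5 : q % 5 ≠ 0) (x : K) :
    x ^ (4 * q) + (x + 1) ^ (4 * q) + (x + 2) ^ (4 * q) ≠ 0 := by
  have hs : x ^ 4 + (x + 1) ^ 4 + (x + 2) ^ 4 ≠ 0 := by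
    rw [sum4]
    exact two_ne
  have ht := noroot44 h81 x
  -- reduction to an exponent `r`
  have key : ∀ (e r j : ℕ), (e = 4 ∨ e = 44) → 1 ≤ r → (∀ z : K, z ^ r = (z ^ e) ^ 3 ^ j) →
      ∀ m : ℕ, 4 * q = 80 * m + r →
      x ^ (4 * q) + (x + 1) ^ (4 * q) + (x + 2) ^ (4 * q) ≠ 0 := by
    intro e r j he hr hz m hm
    rw [hm, powr h81 _ _ _ hr, powr h81 _ _ _ hr, powr h81 _ _ _ hr, hz, hz, hz, cube_sum]
    refine pow_ne_zero _ ?_
    rcases he with rfl | rfl
    · exact hs
    · exact ht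
  have hmod : q % 20 = 1 ∨ q % 20 = 3 ∨ q % 20 = 7 ∨ q % 20 = 9 ∨ q % 20 = 11 ∨ q % 20 = 13 ∨
      q % 20 = 17 ∨ q % 20 = 19 := by omega
  rcases hmod with h | h | h | h | h | h | h | h
  · exact key 4 4 0 (Or.inl rfl) (by norm_num) (fun z => by norm_num) (q / 20) (by omega)
  · exact key 4 12 1 (Or.inl rfl) (by norm_num) (fun z => by rw [← pow_mul]; norm_num) (q / 20)
      (by omega)
  · exact key 4 28 3 (Or.inl rfl) (by norm_num)
      (fun z => by rw [← pow_mul, ← powr h81 z 1 28 (by norm_num)]; norm_num) (q / 20) (by omega)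
  · exact key 4 36 2 (Or.inl rfl) (by norm_num) (fun z => by rw [← pow_mul]; norm_num) (q / 20)
      (by omega)
  · exact key 44 44 0 (Or.inr rfl) (by norm_num) (fun z => by norm_num) (q / 20) (by omega)
  · exact key 44 52 1 (Or.inr rfl) (by norm_num)
      (fun z => by rw [← pow_mul, ← powr h81 z 1 52 (by norm_num)]; norm_num) (q / 20) (by omega)
  · exact key 44 68 3 (Or.inr rfl) (by norm_num)
      (fun z => by rw [← pow_mul, ← powr h81 z 14 68 (by norm_num)]; norm_num) (q / 20) (by omega)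
  · exact key 44 76 2 (Or.inr rfl) (by norm_num)
      (fun z => by rw [← pow_mul, ← powr h81 z 4 76 (by norm_num)]; norm_num) (q / 20) (by omega)

end field

theorem exists_irr (F : (ZMod 3)[X]) (hd : F.natDegree = 2 ∨ F.natDegree = 4) :
    ∃ Q : (ZMod 3)[X], Irreducible Q ∧ Q ∣ F ∧
      (Q.natDegree = 1 ∨ Q.natDegree = 2 ∨ Q.natDegree = 4) := by
  haveI : Fact (Nat.Prime 3) := ⟨Nat.prime_three⟩
  have hF0 : F ≠ 0 := by
    rintro rfl
    rw [natDegree_zero] at hd
    omega
  have hFu : ¬ IsUnit F := by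
    intro h
    have := natDegree_eq_zero_of_isUnit h
    omega
  obtain ⟨Q, hQ, hQF⟩ := WfDvdMonoid.exists_irreducible_factor hFu hF0
  have h1 : Q.natDegree ≤ F.natDegree := natDegree_le_of_dvd hQF hF0
  have h2 : 0 < Q.natDegree := hQ.natDegree_pos
  by_cases h : Q.natDegree = 3
  · obtain ⟨G, hG⟩ := hQF
    have hG0 : G ≠ 0 := by
      rintro rfl
      exact hF0 (by rw [hG, mul_zero])
    have h3 := natDegree_mul hQ.ne_zero hG0
    rw [← hG] at h3
    have h4 : G.natDegree = 1 := by omega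
    refine ⟨G, irreducible_of_degree_eq_one ?_, Dvd.intro_left Q hG.symm, Or.inl h4⟩
    exact (degree_eq_iff_natDegree_eq_of_pos one_pos).2 h4
  · exact ⟨Q, hQ, hQF, by omega⟩

theorem s_NR4 : S_NR4 := by
  intro q hq hq5 F hF
  have key : ¬ (F.natDegree = 2 ∨ F.natDegree = 4) := by
    intro hd
    haveI hprime : Fact (Nat.Prime 3) := ⟨Nat.prime_three⟩
    obtain ⟨Q, hirr, hQF, hQd⟩ := exists_irr F hd
    obtain ⟨G, hG⟩ := hQF.trans hF
    haveI hfact : Fact (Irreducible Q) := ⟨hirr⟩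
    have hF0 : Q ≠ 0 := hirr.ne_zero
    let K := AdjoinRoot Q
    let x : K := AdjoinRoot.root Q
    have hfin : Module.finrank (ZMod 3) K = Q.natDegree := by
      rw [PowerBasis.finrank (AdjoinRoot.powerBasis hF0), AdjoinRoot.powerBasis_dim]
    have hpos : 0 < Module.finrank (ZMod 3) K := by
      rw [hfin]
      exact hirr.natDegree_pos
    have hfd : FiniteDimensional (ZMod 3) K := Module.finite_of_finrank_pos hpos
    have hKf : Finite K := Module.finite_of_finite (ZMod 3)
    have hKft : Fintype K := Fintype.ofFinite K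
    have hcard : Fintype.card K = 3 ^ Q.natDegree := by
      rw [Module.card_eq_pow_finrank (K := ZMod 3) (V := K), hfin, ZMod.card]
    have hchar : CharP K 3 := charP_of_injective_algebraMap (algebraMap (ZMod 3) K).injective 3
    have h81 : ∀ y : K, y ^ 81 = y := by
      intro y
      rcases hQd with h | h | h
      · have := FiniteField.pow_card_pow 4 y
        rw [hcard, h] at this
        norm_num at this
        exact this
      · have := FiniteField.pow_card_pow 2 y
        rw [hcard, h] at this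
        norm_num at this
        exact this
      · have := FiniteField.pow_card_pow 1 y
        rw [hcard, h] at this
        norm_num at this
        exact this
    apply noroot4 h81 q hq hq5 x
    have h1 : aeval x (Sp 3 (4 * q)) = 0 := by
      rw [hG, map_mul]
      have : aeval x Q = 0 := by
        rw [AdjoinRoot.aeval_eq]; exact AdjoinRoot.mk_self
      rw [this, zero_mul]
    rw [Sp_three] at h1
    have h2 : algebraMap (ZMod 3) K 2 = 2 := map_ofNat _ 2
    simpa [h2] using h1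
  exact ⟨fun h => key (Or.inl h), fun h => key (Or.inr h)⟩

theorem cc0 : ((0 : ZMod 3) ^ 0 + 1 + 2 ^ 0) = 0 := by decide
theorem cc1 : ((0 : ZMod 3) ^ 1 + 1 + 2 ^ 1) = 0 := by decide
theorem cc3 : ((0 : ZMod 3) ^ 3 + 1 + 2 ^ 3) = 0 := by decide
theorem cc5 : ((0 : ZMod 3) ^ 5 + 1 + 2 ^ 5) = 0 := by decide
theorem cc2 : ((0 : ZMod 3) ^ 2 + 1 + 2 ^ 2) * 1 ≠ 0 := by decide

theorem s_TH4 (hcri : S_CRI) (hnr : S_NR4) : S_TH4 := by
  haveI hprime : Fact (Nat.Prime 3) := ⟨Nat.prime_three⟩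
  intro q hq hq5 hq3 f g hfg hf4
  have hodd : q % 2 = 1 := Nat.odd_iff.1 (hq.odd_of_ne_two (by omega))
  have h5 : q % 5 ≠ 0 := by
    intro h
    have h1 : 5 ∣ q := Nat.dvd_of_mod_eq_zero h
    have := (Nat.prime_dvd_prime_iff_eq Nat.prime_five hq).1 h1
    omega
  obtain ⟨F, G, hFG, hF, hG, hor⟩ := hcri (4 * q) 3 ⟨2 * q, by ring⟩ (by omega) Nat.prime_three
    (by omega) f g hfg
  have hS0 : Sp 3 (4 * q) ≠ 0 := by
    have := Sp_three_ne_zero (2 * q) (by omega)
    rwa [show 2 * (2 * q) = 4 * q by ring] at this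
  have hFG0 : F * G ≠ 0 := hFG ▸ hS0
  have hF0 : F ≠ 0 := left_ne_zero_of_mul hFG0
  have hG0 : G ≠ 0 := right_ne_zero_of_mul hFG0
  have hb0 : f * g ≠ 0 := hfg ▸ bern_ne_zero _
  have hsum : f.natDegree + g.natDegree = 4 * q := by
    rw [← natDegree_mul (left_ne_zero_of_mul hb0) (right_ne_zero_of_mul hb0), ← hfg,
      natDegree_bern]
  rcases hor with h | h
  · exact (hnr q hodd h5 F (Dvd.intro G hFG)).2 (h.trans hf4)
  · have hFGd : F.natDegree + G.natDegree = (Sp 3 (4 * q)).natDegree := by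
      rw [← hFG, natDegree_mul hF0 hG0]
    have c1 : ((0 : ZMod 3) ^ 0 + 1 + 2 ^ 0) = 0 := cc0
    have c2 : ((0 : ZMod 3) ^ 1 + 1 + 2 ^ 1) = 0 := cc1
    have c3 : ((0 : ZMod 3) ^ 3 + 1 + 2 ^ 3) = 0 := cc3
    have c5 : ((0 : ZMod 3) ^ 5 + 1 + 2 ^ 5) = 0 := cc5
    rcases hq3 with h3 | h3
    · -- the degree is `n - 2`
      have hch : ((4 * q).choose (4 * q - 2) : ZMod 3) = 1 := by
        rw [Nat.choose_symm_of_eq_add (show 4 * q = (4 * q - 2) + 2 by omega)]
        have h6 := Choose.choose_modEq_choose_mod_mul_choose_div_nat (n := 4 * q) (k := 2) (p := 3)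
        have h7 : 4 * q % 3 = 2 := by omega
        rw [h7] at h6
        have h8 : (4 * q).choose 2 ≡ 1 [MOD 3] := by simpa using h6
        have h9 := (ZMod.natCast_eq_natCast_iff _ _ _).2 h8
        simpa using h9
      have hc : (Sp 3 (4 * q)).coeff (4 * q - 2) ≠ 0 := by
        rw [coeff_Sp_three, hch, show 4 * q - (4 * q - 2) = 2 by omega]
        exact cc2
      have hd1 : 4 * q - 2 ≤ (Sp 3 (4 * q)).natDegree := le_natDegree_of_ne_zero hc
      have hd2 : (Sp 3 (4 * q)).natDegree ≤ 4 * q - 2 := by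
        rw [natDegree_le_iff_coeff_eq_zero]
        intro N hN
        rw [coeff_Sp_three]
        rcases Nat.lt_or_ge (4 * q) N with h6 | h6
        · rw [Nat.choose_eq_zero_of_lt h6]; simp
        · have h7 : N = 4 * q ∨ N = 4 * q - 1 := by omega
          rcases h7 with h7 | h7
          · rw [show 4 * q - N = 0 by omega, c1, zero_mul]
          · rw [show 4 * q - N = 1 by omega, c2, zero_mul]
      exact (hnr q hodd h5 F (Dvd.intro G hFG)).1 (by omega)
    · -- the degree is at most `n - 6`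
      have hch2 : ((4 * q).choose (4 * q - 2) : ZMod 3) = 0 := by
        rw [Nat.choose_symm_of_eq_add (show 4 * q = (4 * q - 2) + 2 by omega)]
        have h6 := Choose.choose_modEq_choose_mod_mul_choose_div_nat (n := 4 * q) (k := 2) (p := 3)
        have h7 : 4 * q % 3 = 1 := by omega
        rw [h7] at h6
        have h8 : (4 * q).choose 2 ≡ 0 [MOD 3] := by simpa using h6
        have h9 := (ZMod.natCast_eq_natCast_iff _ _ _).2 h8
        simpa using h9
      have hch4 : ((4 * q).choose (4 * q - 4) : ZMod 3) = 0 := by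
        rw [Nat.choose_symm_of_eq_add (show 4 * q = (4 * q - 4) + 4 by omega)]
        have h6 := Choose.choose_modEq_choose_mod_mul_choose_div_nat (n := 4 * q) (k := 4) (p := 3)
        have h7 : 4 * q % 3 = 1 := by omega
        rw [h7] at h6
        have h10 : 4 * q / 3 ≡ 0 [MOD 3] := by
          show 4 * q / 3 % 3 = 0 % 3
          omega
        have h8 : (4 * q).choose 4 ≡ 4 * q / 3 [MOD 3] := by simpa using h6
        have h9 := (ZMod.natCast_eq_natCast_iff _ _ _).2 (h8.trans h10)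
        simpa using h9
      have hd2 : (Sp 3 (4 * q)).natDegree ≤ 4 * q - 6 := by
        rw [natDegree_le_iff_coeff_eq_zero]
        intro N hN
        rw [coeff_Sp_three]
        rcases Nat.lt_or_ge (4 * q) N with h6 | h6
        · rw [Nat.choose_eq_zero_of_lt h6]; simp
        · have h7 : N = 4 * q ∨ N = 4 * q - 1 ∨ N = 4 * q - 2 ∨ N = 4 * q - 3 ∨ N = 4 * q - 4 ∨
              N = 4 * q - 5 := by omega
          rcases h7 with h7 | h7 | h7 | h7 | h7 | h7
          · rw [show 4 * q - N = 0 by omega, c1, zero_mul]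
          · rw [show 4 * q - N = 1 by omega, c2, zero_mul]
          · rw [h7, hch2, mul_zero]
          · rw [show 4 * q - N = 3 by omega, c3, zero_mul]
          · rw [h7, hch4, mul_zero]
          · rw [show 4 * q - N = 5 by omega, c5, zero_mul]
      omega

end Pool.Agent.L7h64.BP
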